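import Mathlib
import Pool.Agent.Helper1_PRS.Stmts

/-!
# Squad PRS, module RAM: the ramification estimate
-/

set_option autoImplicit false

universe u

namespace Pool.Agent.PRS.H41

open PGH

/-- the contribution of one place -/
noncomputable def term {L E : Type*} [Field L] [Field E] [Algebra L E] (st : Set (Place L E))
    {N : ℕ} (a : Fin N → L) (x : E) (P : Place L E) : ℤ :=
  ∑ i, (by classical exact (if P ∈ st then max 0 (P.ord (x - algebraMap L E (a i)))
        else max 0 (P.ord (x - algebraMap L E (a i)) - 1)))

theorem term_nonneg {L E : Type*} [Field L] [Field E] [Algebra L E] (st : Set (Place L E))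
    {N : ℕ} (a : Fin N → L) (x : E) (P : Place L E) : 0 ≤ term st a x P := by
  classical
  unfold term
  refine Finset.sum_nonneg fun i _ => ?_
  split_ifs
  · exact le_max_left _ _
  · exact le_max_left _ _

/-- the local estimate -/
theorem local_est {L E : Type*} [Field L] [Field E] [Algebra L E]
    (D : Derivation ℤ E E) (c : ℕ) (P : Place L E) (hD : DGe P D (-(c : ℤ))) {N : ℕ}
    (a : Fin N → L) (x : E) (ha : Function.Injective a)
    (hDa : ∀ i, D (algebraMap L E (a i)) = 0) (hx : D x ≠ 0) (st : Set (Place L E))
    (hst : P ∈ st → c = 0 ∧ ∀ y, P.Ge 1 y → P.Ge 1 (D y)) :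
    term st a x P - c - 2 * max 0 (-P.ord x) ≤ P.ord (D x) := by
  classical
  have hx0 : x ≠ 0 := by
    rintro rfl
    exact hx (map_zero D)
  have hne : ∀ i, x - algebraMap L E (a i) ≠ 0 := by
    intro i h
    apply hx
    have h1 : x = algebraMap L E (a i) := sub_eq_zero.1 h
    rw [h1]
    exact hDa i
  have hDx : ∀ i, D (x - algebraMap L E (a i)) = D x := by
    intro i
    rw [map_sub, hDa i, sub_zero]
  by_cases h : ∃ i, P.Ge 1 (x - algebraMap L E (a i))
  · obtain ⟨i, hi⟩ := h
    have hreg : P.Ge 0 x := P.ge_zero_of_res hi
    have hord : 0 ≤ P.ord x := (P.ge_iff hx0).1 hreg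
    have hmax : max 0 (-P.ord x) = 0 := max_eq_left (by omega)
    have hiord : 1 ≤ P.ord (x - algebraMap L E (a i)) := (P.ge_iff (hne i)).1 hi
    have hother : ∀ j, j ≠ i → P.ord (x - algebraMap L E (a j)) ≤ 0 := by
      intro j hj
      by_contra hcon
      apply hj
      apply ha
      exact P.res_unique ((P.ge_iff (hne j)).2 (by omega)) hi
    have hge : P.Ge (P.ord (x - algebraMap L E (a i))) (x - algebraMap L E (a i)) := P.ge_ord
    by_cases hP : P ∈ st
    · obtain ⟨hc, hs⟩ := hst hP
      have ht : term st a x P = P.ord (x - algebraMap L E (a i)) := by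
        unfold term
        rw [Finset.sum_eq_single i]
        · rw [if_pos hP]
          exact max_eq_right (by omega)
        · intro j _ hj
          rw [if_pos hP]
          exact max_eq_left (hother j hj)
        · intro hi'
          exact absurd (Finset.mem_univ i) hi'
      have hD0 : DGe P D 0 := by
        have h0 := hD
        rw [hc] at h0
        simpa using h0
      have h1 := hD0.ge_static hs hge
      rw [hDx i, P.ge_iff hx] at h1
      rw [ht, hmax, hc]
      push_cast
      omega
    · have ht : term st a x P = P.ord (x - algebraMap L E (a i)) - 1 := by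
        unfold term
        rw [Finset.sum_eq_single i]
        · rw [if_neg hP]
          exact max_eq_right (by omega)
        · intro j _ hj
          rw [if_neg hP]
          have := hother j hj
          exact max_eq_left (by omega)
        · intro hi'
          exact absurd (Finset.mem_univ i) hi'
      have h1 := hD.ge hge
      rw [hDx i, P.ge_iff hx] at h1
      rw [ht, hmax]
      omega
  · push Not at h
    have hle : ∀ j, P.ord (x - algebraMap L E (a j)) ≤ 0 := by
      intro j
      by_contra hcon
      exact h j ((P.ge_iff (hne j)).2 (by omega))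
    have ht : term st a x P = 0 := by
      unfold term
      refine Finset.sum_eq_zero fun j _ => ?_
      have := hle j
      split_ifs
      · exact max_eq_left this
      · exact max_eq_left (by omega)
    rw [ht]
    rcases le_total 0 (P.ord x) with h0 | h0
    · have h1 := hD x ((P.ge_iff hx0).2 h0)
      rw [P.ge_iff hx] at h1
      have hmax : max 0 (-P.ord x) = 0 := max_eq_left (by omega)
      rw [hmax]
      omega
    · have hmax : max 0 (-P.ord x) = -P.ord x := max_eq_right (by omega)
      rw [hmax]
      rcases eq_or_lt_of_le h0 with h2 | h2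
      · have h1 := hD x ((P.ge_iff hx0).2 h2.ge)
        rw [P.ge_iff hx] at h1
        omega
      · have h1 := hD.ge (P.ge_ord (y := x))
        rw [P.ge_iff hx] at h1
        omega

theorem ram : RamStmt.{u} := by
  intro L E _ _ _ _ _ _ D cp sc hsc hD N a x ha hDa hx st hst s
  classical
  obtain ⟨S, hS⟩ := (finite_support (L := L) (D x)).exists_finset
  set B : Finset (Place L E) := s ∪ sc ∪ S with hB
  have hzero : ∑ P ∈ B, P.ord (D x) = 0 := by
    apply sum_ord_eq_zero
    intro P hP
    by_contra h0
    apply hP
    rw [hB]
    exact Finset.mem_union_right _ ((hS P).2 h0)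
  have hpole := sum_poles_le (L := L) x B
  have hcp : ∑ P ∈ B, (cp P : ℤ) = ∑ P ∈ sc, (cp P : ℤ) := by
    symm
    apply Finset.sum_subset
    · intro P hP
      rw [hB]
      exact Finset.mem_union_left _ (Finset.mem_union_right _ hP)
    · intro P _ hP
      rw [hsc P hP]
      rfl
  have hloc : ∑ P ∈ B, (term st a x P - cp P - 2 * max 0 (-P.ord x)) ≤ ∑ P ∈ B, P.ord (D x) :=
    Finset.sum_le_sum fun P _ => local_est D (cp P) P (hD P) a x ha hDa hx st (hst P)
  rw [hzero, Finset.sum_sub_distrib, Finset.sum_sub_distrib, ← Finset.mul_sum, hcp] at hloc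
  have hsub : ∑ P ∈ s, term st a x P ≤ ∑ P ∈ B, term st a x P := by
    apply Finset.sum_le_sum_of_subset_of_nonneg
    · intro P hP
      rw [hB]
      exact Finset.mem_union_left _ (Finset.mem_union_left _ hP)
    · intro P _ _
      exact term_nonneg st a x P
  have hfin : ∑ P ∈ s, term st a x P ≤ 2 * (ht L x : ℤ) + ∑ P ∈ sc, (cp P : ℤ) := by
    linarith
  exact hfin

end Pool.Agent.PRS.H41
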